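import Pool.Agent.N145.SX.Stm2

/-!
The structure of varieties covered by unirational varieties with a multivalued map to a variety
whose canonical forms separate points.
-/

set_option autoImplicit false
set_option linter.overlappingInstances false
set_option linter.unusedSectionVars false

open FF IntermediateField Module

namespace Pool.Agent.N297.SX

open Pool.Agent.N145.SX Pool.Agent.N145.PC
open Pool.Agent.W602.GT (Divisorial RegAt IsPluri DerReg DerLog LogAt KodGe LogSec)
open Pool.Agent.Y184.NT (trForm)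
open Pool.Agent.R882.LT (SecAt)

/-! ### Isomorphic fields -/

section transport

variable {E E' : Type} [Field E] [Field E'] [Algebra ℂ E] [Algebra ℂ E'] (e : E ≃ₐ[ℂ] E')

/-- the place of an isomorphic field -/
def plE (P' : Place ℂ E') : Place ℂ E where
  ord z := P'.ord (e z)
  ord_zero := by rw [map_zero, P'.ord_zero]
  ord_mul := fun {f g} hf hg => by
    rw [map_mul, P'.ord_mul ((map_ne_zero e).2 hf) ((map_ne_zero e).2 hg)]
  ord_add := fun {f g} hf hg hfg => by
    rw [map_add]
    refine P'.ord_add ((map_ne_zero e).2 hf) ((map_ne_zero e).2 hg) ?_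
    rw [← map_add]
    exact (map_ne_zero e).2 hfg
  ord_const := fun {c} hc => by
    rw [AlgEquiv.commutes]
    exact P'.ord_const hc
  surj := by
    obtain ⟨t, ht, ht'⟩ := P'.surj
    exact ⟨e.symm t, (map_ne_zero e.symm).2 ht, by rw [AlgEquiv.apply_symm_apply, ht']⟩

theorem plE_reg (P' : Place ℂ E') (z : E) : (plE e P').Reg z ↔ P'.Reg (e z) := by
  unfold Place.Reg
  rw [map_eq_zero]
  rfl

/-- the derivation of an isomorphic field -/
noncomputable def deE (D' : Derivation ℂ E' E') : Derivation ℂ E E :=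
  Derivation.mk' (e.symm.toLinearMap ∘ₗ (D' : E' →ₗ[ℂ] E') ∘ₗ e.toLinearMap) (by
    intro a b
    change e.symm (D' (e (a * b))) = a * e.symm (D' (e b)) + b * e.symm (D' (e a))
    rw [map_mul, Derivation.leibniz, map_add, smul_eq_mul, smul_eq_mul, map_mul, map_mul,
      AlgEquiv.symm_apply_apply, AlgEquiv.symm_apply_apply])

theorem deE_apply (D' : Derivation ℂ E' E') (z : E) : deE e D' z = e.symm (D' (e z)) := rfl

theorem e_deE (D' : Derivation ℂ E' E') (z : E) : e (deE e D' z) = D' (e z) := by
  rw [deE_apply, AlgEquiv.apply_symm_apply]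

theorem HX_equiv {m : ℕ} (x : Fin m → E) {f : E} (hf : f ∈ HX x (fun _ => False)) :
    e f ∈ HX (fun i => e (x i)) (fun _ => False) := by
  intro P' hP'
  have hP : Divisorial m (plE e P') := by
    obtain ⟨u', hu'⟩ := hP'
    refine ⟨fun i => e.symm (u' i), fun F hF => ?_⟩
    have h1 : e (MvPolynomial.aeval (fun i => e.symm (u' i)) F) = MvPolynomial.aeval u' F := by
      have h2 := MvPolynomial.comp_aeval_apply (f := fun i => e.symm (u' i)) (e : E →ₐ[ℂ] E') F
      have h3 : (fun i => (e : E →ₐ[ℂ] E') (e.symm (u' i))) = u' :=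
        funext fun i => e.apply_symm_apply (u' i)
      rw [h3] at h2
      exact h2
    obtain ⟨h2, h3⟩ := hu' F hF
    refine ⟨fun h => h2 ?_, ?_⟩
    · rw [← h1, h, map_zero]
    · change P'.ord (e _) = 0
      rw [h1, h3]
  have hval : ∀ D' : Fin m → Derivation ℂ E' E', e (trForm x f (fun i => deE e (D' i))) =
      trForm (fun i => e (x i)) (e f) D' := by
    intro D'
    unfold trForm
    rw [map_mul]
    congr 1
    have h1 := (RingEquiv.map_det (e : E ≃+* E')
      (Matrix.of fun i j => deE e (D' i) (x j) : Matrix (Fin m) (Fin m) E))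
    refine h1.trans ?_
    congr 1
    ext i j
    exact e_deE e (D' i) (x j)
  obtain ⟨h1, h2⟩ := hf (plE e P') hP
  refine ⟨fun D' hD' => ?_, fun _ D' hD' => ?_⟩
  · rw [← hval]
    refine (plE_reg e P' _).1 (h1 _ fun i z => ?_)
    rw [plE_reg, map_div₀, e_deE]
    exact hD' i (e z)
  · rw [← hval]
    refine (plE_reg e P' _).1 (h2 id _ fun i z hz => ?_)
    rw [plE_reg, e_deE]
    exact hD' i (e z) ((plE_reg e P' z).1 hz)

theorem SepX_equiv {m : ℕ} (x : Fin m → E) {g : ℕ} (h : SepX x (fun _ => False) g) :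
    SepX (fun i => e (x i)) (fun _ => False) g := by
  intro Ω _ _ _ A hA c hc σ hσ
  classical
  let a : (E' →ₐ[ℂ] Ω) → (E →ₐ[ℂ] Ω) := fun σ => σ.comp (e : E →ₐ[ℂ] E')
  let b : (E →ₐ[ℂ] Ω) → (E' →ₐ[ℂ] Ω) := fun σ => σ.comp (e.symm : E' →ₐ[ℂ] E)
  have hba : ∀ σ, b (a σ) = σ := by
    intro σ
    ext z
    change σ (e (e.symm z)) = σ z
    rw [AlgEquiv.apply_symm_apply]
  have hinj : Function.Injective a := fun σ τ hστ => by rw [← hba σ, hστ, hba]
  have h1 := h Ω (A.image a) (by
    rw [Finset.card_image_of_injective _ hinj]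
    exact hA) (fun σ => c (b σ)) (fun f hf => by
      rw [Finset.sum_image fun _ _ _ _ h => hinj h]
      have h2 := hc (e f) (HX_equiv e x hf)
      rw [← h2]
      refine Finset.sum_congr rfl fun σ _ => ?_
      rw [hba]
      rfl) (a σ) (Finset.mem_image_of_mem a hσ)
  rw [hba] at h1
  exact h1

end transport

/-! ### The field of constants -/

section core

variable {K L Ω : Type} [Field K] [Field L] [Field Ω] [Algebra ℂ K] [Algebra ℂ L] [Algebra ℂ Ω]
  [Algebra L K] [Algebra L Ω] [IsScalarTower ℂ L K] [IsScalarTower ℂ L Ω]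

theorem closed (Λ : IntermediateField ℂ Ω) (hΛ : ∀ z : Ω, IsAlgebraic Λ z → z ∈ Λ) {z : L}
    (hz : IsAlgebraic (Λ.comap (IsScalarTower.toAlgHom ℂ L Ω)) z) :
    z ∈ Λ.comap (IsScalarTower.toAlgHom ℂ L Ω) := by
  apply hΛ
  obtain ⟨p, hp0, hp⟩ := hz
  let j : Λ.comap (IsScalarTower.toAlgHom ℂ L Ω) →+* Λ :=
    { toFun := fun z => ⟨algebraMap L Ω z, z.2⟩
      map_one' := Subtype.ext (map_one (algebraMap L Ω))
      map_mul' := fun a b => Subtype.ext (map_mul (algebraMap L Ω) _ _)
      map_zero' := Subtype.ext (map_zero (algebraMap L Ω))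
      map_add' := fun a b => Subtype.ext (map_add (algebraMap L Ω) _ _) }
  refine ⟨p.map j, (Polynomial.map_ne_zero_iff j.injective).2 hp0, ?_⟩
  have h1 := congrArg (algebraMap L Ω) hp
  rw [map_zero, Polynomial.aeval_def, Polynomial.hom_eval₂] at h1
  rw [Polynomial.aeval_def, Polynomial.eval₂_map]
  exact h1

/-- the coordinates are constant -/
theorem constE [IsAlgClosed Ω] [FiniteDimensional L K] (hcstr : S_CSTR) {m r : ℕ}
    (E : IntermediateField ℂ K) [Algebra.EssFiniteType ℂ E] (hEtr : Algebra.trdeg ℂ E = m)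
    (x : Fin m → E) (hx : IsTranscendenceBasis ℂ x) {g : ℕ} (hsep : SepX x (fun _ => False) g)
    (hdeg : 2 * finrank L (IntermediateField.adjoin L (E : Set K)) < g)
    (Λ : IntermediateField ℂ Ω) [IsAlgClosed Λ] (hΛ : ∀ z : Ω, IsAlgebraic Λ z → z ∈ Λ)
    (hΛtr : Algebra.trdeg ℂ Λ = m) (s : Fin r → Ω) (hs : AlgebraicIndependent Λ s)
    (hL : ∀ z : L, algebraMap L Ω z ∈ IntermediateField.adjoin Λ (Set.range s))
    (τ : K →ₐ[L] Ω) {z : K} (hz : z ∈ E) : τ z ∈ Λ := by
  obtain ⟨A, hA⟩ : ∃ A, A = IntermediateField.adjoin L (E : Set K) := ⟨_, rfl⟩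
  rw [← hA] at hdeg
  obtain ⟨hf1, hf2⟩ := adj_le (A0 := L) (A := A)
    (R := IntermediateField.adjoin Λ (Set.range s)) ((τ : K →+* Ω).comp (algebraMap A K))
    (fun a => ⟨⟨algebraMap L Ω a, hL a⟩, (τ.commutes a).symm⟩)
  let φ : E →ₐ[ℂ] Ω := (τ.restrictScalars ℂ).comp E.val
  have hle : IntermediateField.adjoin (IntermediateField.adjoin Λ (Set.range s)) (Set.range φ) ≤
      IntermediateField.adjoin (IntermediateField.adjoin Λ (Set.range s))
        (Set.range ((τ : K →+* Ω).comp (algebraMap A K))) := by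
    apply IntermediateField.adjoin.mono
    rintro _ ⟨w, rfl⟩
    exact ⟨⟨(w : K), by rw [hA]; exact IntermediateField.subset_adjoin _ _ w.2⟩, rfl⟩
  have hfin : FiniteDimensional (IntermediateField.adjoin Λ (Set.range s))
      (IntermediateField.adjoin (IntermediateField.adjoin Λ (Set.range s)) (Set.range φ)) :=
    FiniteDimensional.of_injective (IntermediateField.inclusion hle).toLinearMap
      (IntermediateField.inclusion hle).injective
  have hfr : finrank (IntermediateField.adjoin Λ (Set.range s))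
      (IntermediateField.adjoin (IntermediateField.adjoin Λ (Set.range s)) (Set.range φ)) ≤
      finrank (IntermediateField.adjoin Λ (Set.range s))
        (IntermediateField.adjoin (IntermediateField.adjoin Λ (Set.range s))
          (Set.range ((τ : K →+* Ω).comp (algebraMap A K)))) :=
    IntermediateField.finrank_le_of_le_right hle
  have h2 := hcstr E Λ Ω m m r hEtr hΛtr x hx g hsep s hs φ hfin (by omega) ⟨z, hz⟩
  exact hΛ _ h2

end core

/-- transcendence degrees in algebraic extensions -/
theorem trdeg_alg {N A : Type} [Field N] [Field A] [Algebra ℂ N] [Algebra ℂ A] [Algebra N A]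
    [IsScalarTower ℂ N A] [Algebra.IsAlgebraic N A] : Algebra.trdeg ℂ N = Algebra.trdeg ℂ A := by
  have h1 := trdeg_add_eq ℂ N (A := A)
  have h2 : Algebra.trdeg N A = 0 := trdeg_eq_zero
  rw [h2, add_zero] at h1
  exact h1

theorem alg_of_trdeg {N A : Type} [Field N] [Field A] [Algebra ℂ N] [Algebra ℂ A] [Algebra N A]
    [IsScalarTower ℂ N A] {m : ℕ} (hN : Algebra.trdeg ℂ N = m) (hA : Algebra.trdeg ℂ A = m) :
    Algebra.IsAlgebraic N A := by
  have h1 := trdeg_add_eq ℂ N (A := A)
  rw [hN, hA] at h1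
  rw [← trdeg_eq_zero_iff]
  have h2 : Algebra.trdeg N A + (m : Cardinal) = 0 + m := by
    rw [add_comm, h1, zero_add]
  exact (Cardinal.add_right_inj_of_lt_aleph0 Cardinal.natCast_lt_aleph0).1 h2

section base

variable {K L : Type} [Field K] [Field L] [Algebra ℂ K] [Algebra ℂ L]
  [Algebra L K] [IsScalarTower ℂ L K] [FiniteDimensional L K]

/-- **The base.** -/
theorem baseKod [Algebra.EssFiniteType ℂ K] (hfg : S_FG) (hgt : S_GT2) {m : ℕ}
    (E : IntermediateField ℂ K) [Algebra.EssFiniteType ℂ E] (hEtr : Algebra.trdeg ℂ E = m)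
    (x : Fin m → E) (hx : IsTranscendenceBasis ℂ x) {g : ℕ} (hsep : SepX x (fun _ => False) g)
    (hdeg : 2 * finrank L (IntermediateField.adjoin L (E : Set K)) < g)
    (N : IntermediateField ℂ L) (hcl : ∀ z : L, IsAlgebraic N z → z ∈ N)
    (hE : ∀ z ∈ E, IsAlgebraic N z) (hNle : Algebra.trdeg ℂ N ≤ m) :
    Algebra.trdeg ℂ N = m ∧ KodGe ℂ N m (fun _ => False) m := by
  have hcL : CharZero L := charZero_of_injective_algebraMap (algebraMap ℂ L).injective
  have hcN : CharZero N := charZero_of_injective_algebraMap (algebraMap ℂ N).injective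
  obtain ⟨K1, hK1⟩ : ∃ K1 : IntermediateField N K, K1 = IntermediateField.adjoin N (E : Set K) :=
    ⟨_, rfl⟩
  have hEK : ∀ z ∈ E, z ∈ K1 := fun z hz => by
    rw [hK1]
    exact IntermediateField.subset_adjoin _ _ hz
  have halgK1 : Algebra.IsAlgebraic N K1 := by
    rw [hK1]
    exact IntermediateField.isAlgebraic_adjoin fun z hz => (hE z hz).isIntegral
  have hess : Algebra.EssFiniteType ℂ K1 := hfg ℂ K (K1.restrictScalars ℂ)
  have hess' : Algebra.EssFiniteType N K1 := Algebra.EssFiniteType.of_comp ℂ N K1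
  have hfin : FiniteDimensional N K1 := Algebra.finite_of_essFiniteType_of_isAlgebraic
  -- the field `E` in `K1`
  let iv : K1 →ₐ[ℂ] K := K1.val.restrictScalars ℂ
  obtain ⟨E', hE'⟩ : ∃ E' : IntermediateField ℂ K1, E' = E.comap iv := ⟨_, rfl⟩
  have hmem : ∀ z : K1, z ∈ E' ↔ (z : K) ∈ E := by
    intro z
    rw [hE']
    rfl
  let e : E ≃ₐ[ℂ] E' :=
    { toFun := fun z => ⟨⟨z, hEK z z.2⟩, (hmem _).2 z.2⟩
      invFun := fun w => ⟨((w : K1) : K), (hmem _).1 w.2⟩
      left_inv := fun _ => rfl
      right_inv := fun _ => rfl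
      map_mul' := fun _ _ => rfl
      map_add' := fun _ _ => rfl
      commutes' := fun _ => rfl }
  have hessE' : Algebra.EssFiniteType ℂ E' :=
    Algebra.EssFiniteType.of_surjective e.toAlgHom e.surjective
  have hE'tr : Algebra.trdeg ℂ E' = m := by
    rw [← e.trdeg_eq, hEtr]
  have hNK : Algebra.trdeg ℂ N = Algebra.trdeg ℂ K1 := trdeg_alg
  have hK1tr : Algebra.trdeg ℂ K1 = m := by
    apply le_antisymm
    · rw [← hNK]
      exact hNle
    · rw [← hE'tr]
      exact trdeg_le_of_injective E'.val E'.val.injective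
  refine ⟨hNK.trans hK1tr, ?_⟩
  have hx' : IsTranscendenceBasis ℂ (fun i => e (x i)) := e.isTranscendenceBasis hx
  have hsep' := SepX_equiv e x hsep
  refine hgt N K1 E' m hE'tr hK1tr _ hx' g hsep' ?_
  -- the degrees
  have h1 : finrank N (IntermediateField.adjoin N (Set.range (algebraMap E' K1))) ≤
      finrank N K1 :=
    Submodule.finrank_le (IntermediateField.adjoin N (Set.range (algebraMap E' K1))).toSubmodule
  have h2 : finrank N K1 ≤ finrank L (IntermediateField.adjoin L (E : Set K)) := by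
    refine finrank_le_of_disj (N := N) (L := L) (A := K1) (K := K)
      (fun z hz => ⟨⟨z, hcl z hz.isAlgebraic⟩, rfl⟩) _ ?_
    intro a
    let T : IntermediateField N K :=
      { carrier := {y | y ∈ IntermediateField.adjoin L (E : Set K)}
        mul_mem' := fun {a b} ha hb => (IntermediateField.adjoin L (E : Set K)).mul_mem ha hb
        add_mem' := fun {a b} ha hb => (IntermediateField.adjoin L (E : Set K)).add_mem ha hb
        algebraMap_mem' := fun y => (IntermediateField.adjoin L (E : Set K)).algebraMap_mem (y : L)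
        inv_mem' := fun a ha => (IntermediateField.adjoin L (E : Set K)).inv_mem ha }
    have h3 : K1 ≤ T := by
      rw [hK1, IntermediateField.adjoin_le_iff]
      intro y hy
      exact IntermediateField.subset_adjoin L (E : Set K) hy
    exact h3 a.2
  omega

end base

/-! ### Rational function fields -/

/-- algebraic elements of a rational function field -/
theorem const_of_alg {M : Type} [Field M] {r : ℕ} {y : FractionRing (MvPolynomial (Fin r) M)}
    (hxs : AlgebraicIndependent M (fun i : Fin r => algebraMap (MvPolynomial (Fin r) M)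
      (FractionRing (MvPolynomial (Fin r) M)) (MvPolynomial.X i))) (hy : IsAlgebraic M y) :
    ∃ c : M, algebraMap M (FractionRing (MvPolynomial (Fin r) M)) c = y := by
  obtain ⟨xs, hxsd⟩ : ∃ xs : Fin r → FractionRing (MvPolynomial (Fin r) M), xs =
    fun i : Fin r => algebraMap (MvPolynomial (Fin r) M)
      (FractionRing (MvPolynomial (Fin r) M)) (MvPolynomial.X i) := ⟨_, rfl⟩
  rw [← hxsd] at hxs
  have hev : ∀ p : MvPolynomial (Fin r) M, MvPolynomial.aeval xs p =
      algebraMap (MvPolynomial (Fin r) M) (FractionRing (MvPolynomial (Fin r) M)) p := by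
    intro p
    have h1 := MvPolynomial.aeval_unique (IsScalarTower.toAlgHom M (MvPolynomial (Fin r) M)
      (FractionRing (MvPolynomial (Fin r) M)))
    have h2 : ((IsScalarTower.toAlgHom M (MvPolynomial (Fin r) M)
      (FractionRing (MvPolynomial (Fin r) M))) ∘ MvPolynomial.X) = xs := by
      rw [hxsd]
      rfl
    rw [h2] at h1
    rw [← h1]
    rfl
  have hS : AlgebraicIndependent
      (algebraicClosure M (FractionRing (MvPolynomial (Fin r) M))) xs := hxs.algebraicClosure
  obtain ⟨a, b, hb, hab⟩ := IsFractionRing.div_surjective (A := MvPolynomial (Fin r) M) y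
  have hb0 : b ≠ 0 := nonZeroDivisors.ne_zero hb
  have hb1 : algebraMap (MvPolynomial (Fin r) M) (FractionRing (MvPolynomial (Fin r) M)) b ≠ 0 :=
    (map_ne_zero_iff _ (IsFractionRing.injective _ _)).2 hb0
  have h1 : algebraMap (MvPolynomial (Fin r) M) (FractionRing (MvPolynomial (Fin r) M)) a =
      y * algebraMap (MvPolynomial (Fin r) M) (FractionRing (MvPolynomial (Fin r) M)) b := by
    rw [← hab, div_mul_cancel₀ _ hb1]
  let y' : algebraicClosure M (FractionRing (MvPolynomial (Fin r) M)) :=
    ⟨y, mem_algebraicClosure_iff.2 hy⟩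
  have h2 : MvPolynomial.map (algebraMap M (algebraicClosure M
      (FractionRing (MvPolynomial (Fin r) M)))) a - MvPolynomial.C y' *
      MvPolynomial.map (algebraMap M (algebraicClosure M
      (FractionRing (MvPolynomial (Fin r) M)))) b = 0 := by
    refine (algebraicIndependent_iff.1 hS) _ ?_
    rw [map_sub, map_mul, MvPolynomial.aeval_map_algebraMap, MvPolynomial.aeval_map_algebraMap,
      MvPolynomial.aeval_C, hev, hev, h1, sub_eq_zero]
    rfl
  obtain ⟨n, hn⟩ := MvPolynomial.ne_zero_iff.1 hb0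
  have h3 := congrArg (MvPolynomial.coeff n) h2
  rw [MvPolynomial.coeff_sub, MvPolynomial.coeff_C_mul, MvPolynomial.coeff_map,
    MvPolynomial.coeff_map, MvPolynomial.coeff_zero, sub_eq_zero] at h3
  have h4 := congrArg (algebraMap (algebraicClosure M (FractionRing (MvPolynomial (Fin r) M)))
    (FractionRing (MvPolynomial (Fin r) M))) h3
  rw [map_mul, ← IsScalarTower.algebraMap_apply, ← IsScalarTower.algebraMap_apply] at h4
  refine ⟨MvPolynomial.coeff n a / MvPolynomial.coeff n b, ?_⟩
  rw [map_div₀, h4]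
  exact mul_div_cancel_right₀ _ ((map_ne_zero _).2 hn)

/-- **The field of constants.** -/
theorem uniR (hcstr : S_CSTR) (halg : S_ALG) (hfg : S_FG) (hgt : S_GT2)
    {K L R M Ω : Type} [Field K] [Field L] [Field R] [Field M] [Field Ω] [Algebra ℂ K]
    [Algebra ℂ L] [Algebra ℂ M] [Algebra ℂ R] [Algebra ℂ Ω] [Algebra L K] [IsScalarTower ℂ L K]
    [FiniteDimensional L K] [Algebra.EssFiniteType ℂ K] [Algebra M R] [IsScalarTower ℂ M R]
    [Algebra R Ω] [IsScalarTower ℂ R Ω] [Algebra M Ω] [IsScalarTower M R Ω] [IsAlgClosed Ω]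
    {m r : ℕ} (E : IntermediateField ℂ K) [Algebra.EssFiniteType ℂ E]
    (hEtr : Algebra.trdeg ℂ E = m) (x : Fin m → E) (hx : IsTranscendenceBasis ℂ x) {g : ℕ}
    (hsep : SepX x (fun _ => False) g)
    (hdeg : 2 * finrank L (IntermediateField.adjoin L (E : Set K)) < g)
    (hM : Algebra.trdeg ℂ M = m) (s0 : Fin r → R) (hs0 : AlgebraicIndependent M s0)
    (hgen : IntermediateField.adjoin M (Set.range s0) = ⊤)
    (hconst : ∀ y : R, IsAlgebraic M y → ∃ c : M, algebraMap M R c = y) (ι : L →ₐ[ℂ] R) :
    ∃ N : IntermediateField ℂ L, (∀ z : L, IsAlgebraic N z → z ∈ N) ∧ Algebra.trdeg ℂ N = m ∧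
      KodGe ℂ N m (fun _ => False) m ∧ ∃ j : N →+* M, ∀ a : N, algebraMap M R (j a) = ι a := by
  let iL : Algebra L Ω := ((algebraMap R Ω).comp (ι : L →+* R)).toAlgebra
  have hLR : ∀ z : L, algebraMap L Ω z = algebraMap R Ω (ι z) := fun _ => rfl
  have hT : IsScalarTower ℂ L Ω := IsScalarTower.of_algebraMap_eq fun c => by
    rw [hLR, ι.commutes, ← IsScalarTower.algebraMap_apply]
  have hTM : IsScalarTower ℂ M Ω := IsScalarTower.of_algebraMap_eq fun c => by
    rw [IsScalarTower.algebraMap_apply M R Ω, ← IsScalarTower.algebraMap_apply ℂ M R,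
      ← IsScalarTower.algebraMap_apply ℂ R Ω]
  let Λ : IntermediateField ℂ Ω := (algebraicClosure M Ω).restrictScalars ℂ
  have hmem : ∀ z : Ω, z ∈ Λ ↔ IsAlgebraic M z := fun z => mem_algebraicClosure_iff
  have hΛc : IsAlgClosed Λ := (algebraicClosure.isAlgClosure M Ω).isAlgClosed
  have hΛ : ∀ z : Ω, IsAlgebraic Λ z → z ∈ Λ := by
    intro z hz
    rw [hmem]
    have h1 : IsAlgebraic (algebraicClosure M Ω) z := hz
    exact h1.restrictScalars M
  have hΛtr : Algebra.trdeg ℂ Λ = m := by
    rw [← hM]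
    exact (trdeg_alg (N := M) (A := algebraicClosure M Ω)).symm
  have hs1 : AlgebraicIndependent M (fun i => algebraMap R Ω (s0 i)) :=
    hs0.map' (f := IsScalarTower.toAlgHom M R Ω) (algebraMap R Ω).injective
  have hs : AlgebraicIndependent Λ (fun i => algebraMap R Ω (s0 i)) := hs1.algebraicClosure
  have hR : ∀ y : R, algebraMap R Ω y ∈
      IntermediateField.adjoin Λ (Set.range fun i => algebraMap R Ω (s0 i)) := by
    obtain ⟨S, hSd⟩ : ∃ S, S = IntermediateField.adjoin Λ
      (Set.range fun i => algebraMap R Ω (s0 i)) := ⟨_, rfl⟩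
    rw [← hSd]
    let T : IntermediateField M R :=
      { carrier := {y | algebraMap R Ω y ∈ S}
        mul_mem' := fun {a b} ha hb => by
          change algebraMap R Ω (a * b) ∈ S
          rw [map_mul]
          exact S.mul_mem ha hb
        add_mem' := fun {a b} ha hb => by
          change algebraMap R Ω (a + b) ∈ S
          rw [map_add]
          exact S.add_mem ha hb
        algebraMap_mem' := fun c => by
          change algebraMap R Ω (algebraMap M R c) ∈ S
          rw [← IsScalarTower.algebraMap_apply]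
          have h1 : algebraMap M Ω c ∈ Λ := (hmem _).2 (isAlgebraic_algebraMap c)
          exact S.algebraMap_mem ⟨_, h1⟩
        inv_mem' := fun a ha => by
          change algebraMap R Ω a⁻¹ ∈ S
          rw [map_inv₀]
          exact S.inv_mem ha }
    have h1 : IntermediateField.adjoin M (Set.range s0) ≤ T := by
      rw [IntermediateField.adjoin_le_iff]
      rintro _ ⟨i, rfl⟩
      change algebraMap R Ω (s0 i) ∈ S
      rw [hSd]
      exact IntermediateField.subset_adjoin _ _ ⟨i, rfl⟩
    rw [hgen] at h1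
    exact fun y => h1 (IntermediateField.mem_top (x := y))
  have hL : ∀ z : L, algebraMap L Ω z ∈
      IntermediateField.adjoin Λ (Set.range fun i => algebraMap R Ω (s0 i)) := fun z => hR (ι z)
  have hE : ∀ z ∈ E, IsAlgebraic (Λ.comap (IsScalarTower.toAlgHom ℂ L Ω)) z := by
    intro z hz
    exact halg K L Ω Λ hΛ z fun τ => constE hcstr E hEtr x hx hsep hdeg Λ hΛ hΛtr
      (fun i => algebraMap R Ω (s0 i)) hs hL τ hz
  have hcl : ∀ z : L, IsAlgebraic (Λ.comap (IsScalarTower.toAlgHom ℂ L Ω)) z →
      z ∈ Λ.comap (IsScalarTower.toAlgHom ℂ L Ω) := fun z hz => closed Λ hΛ hz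
  have hle : Algebra.trdeg ℂ (Λ.comap (IsScalarTower.toAlgHom ℂ L Ω)) ≤ m := by
    rw [← hΛtr]
    let f : (Λ.comap (IsScalarTower.toAlgHom ℂ L Ω)) →ₐ[ℂ] Λ :=
      { toFun := fun z => ⟨algebraMap L Ω z, z.2⟩
        map_one' := Subtype.ext (map_one (algebraMap L Ω))
        map_mul' := fun a b => Subtype.ext (map_mul (algebraMap L Ω) _ _)
        map_zero' := Subtype.ext (map_zero (algebraMap L Ω))
        map_add' := fun a b => Subtype.ext (map_add (algebraMap L Ω) _ _)
        commutes' := fun c => Subtype.ext (IsScalarTower.algebraMap_apply ℂ L Ω c).symm }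
    exact trdeg_le_of_injective f f.toRingHom.injective
  obtain ⟨h1, h2⟩ := baseKod hfg hgt E hEtr x hx hsep hdeg
    (Λ.comap (IsScalarTower.toAlgHom ℂ L Ω)) hcl hE hle
  refine ⟨Λ.comap (IsScalarTower.toAlgHom ℂ L Ω), hcl, h1, h2, ?_⟩
  have h3 : ∀ a : Λ.comap (IsScalarTower.toAlgHom ℂ L Ω), ∃ c : M, algebraMap M R c = ι a := by
    intro a
    apply hconst
    have h4 : IsAlgebraic M (algebraMap R Ω (ι a)) := (hmem _).1 a.2
    exact (isAlgebraic_algebraMap_iff (algebraMap R Ω).injective).1 h4
  choose j hj using h3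
  have hinj := (algebraMap M R).injective
  refine ⟨
    { toFun := j
      map_one' := hinj (by rw [hj]; simp)
      map_mul' := fun a b => hinj (by rw [hj, map_mul, hj, hj]; simp)
      map_zero' := hinj (by rw [hj]; simp)
      map_add' := fun a b => hinj (by rw [hj, map_add, hj, hj]; simp) }, hj⟩

/-- **SX/UNI.** -/
theorem UNI (hcstr : S_CSTR) (halg : S_ALG) (hfg : S_FG) (hgt : S_GT2) : S_UNI := by
  intro K _ _ _ m r E _ hEtr hKtr x hx g hsep L _ _ _ _ _ hdeg M _ _ hM hι
  obtain ⟨ι⟩ := hι
  obtain ⟨xs, hxsd⟩ : ∃ xs : Fin r → FractionRing (MvPolynomial (Fin r) M), xs =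
    fun i : Fin r => algebraMap (MvPolynomial (Fin r) M)
      (FractionRing (MvPolynomial (Fin r) M)) (MvPolynomial.X i) := ⟨_, rfl⟩
  have hxs : AlgebraicIndependent M xs := by
    rw [hxsd]
    exact (MvPolynomial.algebraicIndependent_X (Fin r) M).map'
      (f := IsScalarTower.toAlgHom M (MvPolynomial (Fin r) M)
        (FractionRing (MvPolynomial (Fin r) M))) (IsFractionRing.injective _ _)
  have hgen : IntermediateField.adjoin M (Set.range xs) = ⊤ := by
    rw [eq_top_iff]
    rintro y -
    obtain ⟨a, b, hb, rfl⟩ := IsFractionRing.div_surjective (A := MvPolynomial (Fin r) M) y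
    have h1 : ∀ p : MvPolynomial (Fin r) M, algebraMap (MvPolynomial (Fin r) M)
        (FractionRing (MvPolynomial (Fin r) M)) p ∈
        IntermediateField.adjoin M (Set.range xs) := by
      intro p
      induction p using MvPolynomial.induction_on with
      | C c => exact (IntermediateField.adjoin M (Set.range xs)).algebraMap_mem c
      | add p q hp hq =>
        rw [map_add]
        exact add_mem hp hq
      | mul_X p i hp =>
        rw [map_mul]
        exact mul_mem hp (IntermediateField.subset_adjoin _ _ ⟨i, by rw [hxsd]⟩)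
    exact div_mem (h1 a) (h1 b)
  have hconst : ∀ y : FractionRing (MvPolynomial (Fin r) M), IsAlgebraic M y →
      ∃ c : M, algebraMap M _ c = y := by
    intro y hy
    rw [hxsd] at hxs
    exact const_of_alg hxs hy
  obtain ⟨N, hcl, htr, hk, j, hj⟩ := uniR hcstr halg hfg hgt
    (R := FractionRing (MvPolynomial (Fin r) M)) (M := M)
    (Ω := AlgebraicClosure (FractionRing (MvPolynomial (Fin r) M)))
    E hEtr x hx hsep hdeg hM xs hxs hgen hconst ι
  let iN : Algebra N M := j.toAlgebra
  have hTN : IsScalarTower ℂ N M := IsScalarTower.of_algebraMap_eq fun c => by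
    apply (algebraMap M (FractionRing (MvPolynomial (Fin r) M))).injective
    rw [← IsScalarTower.algebraMap_apply]
    change _ = algebraMap M (FractionRing (MvPolynomial (Fin r) M)) (j (algebraMap ℂ N c))
    rw [hj]
    exact (ι.commutes c).symm
  refine ⟨N, hcl, htr, hk, M, inferInstance, iN, alg_of_trdeg htr hM, ⟨?_⟩⟩
  exact
    { (ι : L →+* FractionRing (MvPolynomial (Fin r) M)) with
      commutes' := fun a => by
        change ι (algebraMap N L a) = _
        rw [IsScalarTower.algebraMap_apply N M (FractionRing (MvPolynomial (Fin r) M))]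
        exact (hj a).symm }

end Pool.Agent.N297.SX
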